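import Mathlib

set_option autoImplicit false

/-!
# A graceful bipartite graph without a near alpha-valuation

The graph `K_{5,5}` minus a perfect matching is bipartite, connected and graceful, but it has no
near alpha-valuation: all its degrees are `4`, so the sum of the edge labels of a near
alpha-valuation would be a multiple of `4`, whereas `1 + 2 + ... + 20 = 210` is not.
-/

namespace Pool.Agent.Results.MP_cfde94_co.GracefulNotNear

/-- The label `|b u - b v|` of the edge `{u, v}`. -/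
def edgeLabel {V : Type} (b : V → ℤ) : Sym2 V → ℤ :=
  Sym2.lift ⟨fun u v => |b u - b v|, fun u v => abs_sub_comm (b u) (b v)⟩

/-- `b` is a beta-valuation (graceful labelling) of `G`: it is injective, its values lie in
`{0, ..., n}`, where `n` is the number of edges of `G`, and the labels of the edges are exactly
`1, ..., n`, each occurring once. -/
def IsBetaValuation {V : Type} (G : SimpleGraph V) (b : V → ℤ) : Prop :=
  Function.Injective b ∧ (∀ v, 0 ≤ b v ∧ b v ≤ (G.edgeSet.ncard : ℤ)) ∧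
    Set.BijOn (edgeLabel b) G.edgeSet (Set.Icc 1 (G.edgeSet.ncard : ℤ))

/-- `b` is a near alpha-valuation of `G`: a beta-valuation for which the vertices can be split
into a set `S` (the small vertices) and its complement (the large vertices), so that each small
vertex has a smaller value, and each large vertex a larger value, than all its neighbours. -/
def IsNearAlphaValuation {V : Type} (G : SimpleGraph V) (b : V → ℤ) : Prop :=
  IsBetaValuation G b ∧ ∃ S : Set V,
    (∀ v ∈ S, ∀ u, G.Adj v u → b v < b u) ∧ (∀ v ∉ S, ∀ u, G.Adj v u → b u < b v)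

/-- `K_{5,5}` minus a perfect matching. -/
def G55 : SimpleGraph (Fin 5 ⊕ Fin 5) where
  Adj x y := match x, y with
    | Sum.inl i, Sum.inr j => i ≠ j
    | Sum.inr j, Sum.inl i => i ≠ j
    | _, _ => False
  symm := ⟨by rintro (i | i) (j | j) h <;> simp_all⟩
  loopless := ⟨by rintro (i | i) h <;> exact h⟩

instance : DecidableRel G55.Adj := fun x y => by
  unfold G55
  rcases x with i | i <;> rcases y with j | j <;> simp only <;> infer_instance

/-- The pairs of indices of the edges. -/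
def pairs : Finset (Fin 5 × Fin 5) := Finset.univ.filter fun p => p.1 ≠ p.2

/-- The edge belonging to a pair of indices. -/
def toEdge (p : Fin 5 × Fin 5) : Sym2 (Fin 5 ⊕ Fin 5) := s(Sum.inl p.1, Sum.inr p.2)

lemma toEdge_inj : Function.Injective toEdge := by
  rintro ⟨i, j⟩ ⟨k, l⟩ h
  simp [toEdge] at h
  simpa using h

lemma edgeSet_eq : G55.edgeSet = toEdge '' (pairs : Set (Fin 5 × Fin 5)) := by
  ext e
  induction e using Sym2.ind with
  | _ x y =>
    rcases x with i | i <;> rcases y with j | j <;> simp [G55, toEdge, pairs, SimpleGraph.mem_edgeSet]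

lemma ncard_edges : G55.edgeSet.ncard = 20 := by
  rw [edgeSet_eq, Set.ncard_image_of_injective _ toEdge_inj, Set.ncard_coe_finset]
  decide

/-- A graceful labelling of `G55`. -/
def lab : Fin 5 ⊕ Fin 5 → ℤ
  | Sum.inl i => ![0, 9, 6, 4, 14] i
  | Sum.inr i => ![7, 20, 19, 18, 17] i

lemma label_toEdge (b : Fin 5 ⊕ Fin 5 → ℤ) (p : Fin 5 × Fin 5) :
    edgeLabel b (toEdge p) = |b (Sum.inl p.1) - b (Sum.inr p.2)| := rfl

lemma lab_beta : IsBetaValuation G55 lab := by
  refine ⟨by decide, ?_, ?_⟩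
  · rw [ncard_edges]; decide
  · rw [ncard_edges, edgeSet_eq]
    refine ⟨?_, ?_, ?_⟩
    · rintro _ ⟨p, hp, rfl⟩
      rw [label_toEdge]
      revert p
      decide
    · rintro _ ⟨p, hp, rfl⟩ _ ⟨q, hq, rfl⟩ h
      rw [label_toEdge, label_toEdge] at h
      congr 1
      have key : ∀ p ∈ pairs, ∀ q ∈ pairs,
          |lab (Sum.inl p.1) - lab (Sum.inr p.2)| = |lab (Sum.inl q.1) - lab (Sum.inr q.2)| →
            p = q := by decide +kernel
      exact key p hp q hq h
    · intro k hk
      have hk' : k ∈ Finset.Icc (1 : ℤ) 20 := by simpa using hk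
      have key : ∀ k ∈ Finset.Icc (1 : ℤ) 20, ∃ p ∈ pairs,
          |lab (Sum.inl p.1) - lab (Sum.inr p.2)| = k := by decide +kernel
      obtain ⟨p, hp, h⟩ := key k hk'
      exact ⟨toEdge p, ⟨p, hp, rfl⟩, h⟩

lemma sum_labels (b : Fin 5 ⊕ Fin 5 → ℤ) (hb : IsBetaValuation G55 b) :
    ∑ p ∈ pairs, |b (Sum.inl p.1) - b (Sum.inr p.2)| = 210 := by
  obtain ⟨-, -, h⟩ := hb
  rw [ncard_edges, edgeSet_eq] at h
  have h1 : ∑ p ∈ pairs, |b (Sum.inl p.1) - b (Sum.inr p.2)| = ∑ k ∈ Finset.Icc (1 : ℤ) 20, k := by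
    refine Finset.sum_bij (fun p _ => edgeLabel b (toEdge p)) ?_ ?_ ?_ ?_
    · intro p hp
      have := h.mapsTo ⟨p, hp, rfl⟩
      simpa using this
    · intro p hp q hq hpq
      exact toEdge_inj (h.injOn ⟨p, hp, rfl⟩ ⟨q, hq, rfl⟩ hpq)
    · intro k hk
      obtain ⟨_, ⟨p, hp, rfl⟩, hk'⟩ := h.surjOn (show k ∈ Set.Icc (1 : ℤ) ((20 : ℕ) : ℤ) by
        simpa using hk)
      exact ⟨p, hp, hk'⟩
    · intro p _
      rfl
  rw [h1]
  decide

lemma sum_pairs_inl (f : Fin 5 → ℤ) : ∑ p ∈ pairs, f p.1 = 4 * ∑ i, f i := by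
  have : pairs = (Finset.univ ×ˢ Finset.univ).filter fun p : Fin 5 × Fin 5 => p.1 ≠ p.2 := rfl
  simp only [this, Finset.sum_filter, Finset.sum_product, Fin.sum_univ_five]
  simp
  ring

lemma sum_pairs_inr (f : Fin 5 → ℤ) : ∑ p ∈ pairs, f p.2 = 4 * ∑ i, f i := by
  have : pairs = (Finset.univ ×ˢ Finset.univ).filter fun p : Fin 5 × Fin 5 => p.1 ≠ p.2 := rfl
  simp only [this, Finset.sum_filter, Finset.sum_product, Fin.sum_univ_five]
  simp
  ring

lemma no_near (b : Fin 5 ⊕ Fin 5 → ℤ) : ¬ IsNearAlphaValuation G55 b := by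
  classical
  rintro ⟨hb, S, h1, h2⟩
  let σ : Fin 5 ⊕ Fin 5 → ℤ := fun v => if v ∈ S then -1 else 1
  have key : ∀ p ∈ pairs, |b (Sum.inl p.1) - b (Sum.inr p.2)| =
      σ (Sum.inl p.1) * b (Sum.inl p.1) + σ (Sum.inr p.2) * b (Sum.inr p.2) := by
    intro p hp
    have hadj : G55.Adj (Sum.inl p.1) (Sum.inr p.2) := by
      simpa [G55, pairs] using hp
    by_cases hx : (Sum.inl p.1 : Fin 5 ⊕ Fin 5) ∈ S
    · have hlt := h1 _ hx _ hadj
      by_cases hy : (Sum.inr p.2 : Fin 5 ⊕ Fin 5) ∈ S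
      · have := h1 _ hy _ hadj.symm
        omega
      · simp only [σ, hx, hy, if_true, if_false]
        rw [abs_of_neg (by omega)]
        ring
    · have hlt := h2 _ hx _ hadj
      by_cases hy : (Sum.inr p.2 : Fin 5 ⊕ Fin 5) ∈ S
      · simp only [σ, hx, hy, if_true, if_false]
        rw [abs_of_pos (by omega)]
        ring
      · have := h2 _ hy _ hadj.symm
        omega
  have h3 := sum_labels b hb
  rw [Finset.sum_congr rfl key, Finset.sum_add_distrib,
    sum_pairs_inl (fun i => σ (Sum.inl i) * b (Sum.inl i)),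
    sum_pairs_inr (fun i => σ (Sum.inr i) * b (Sum.inr i))] at h3
  omega

lemma connected : G55.Connected := by
  have : ∀ x y : Fin 5 ⊕ Fin 5, ∃ z w, (x = z ∨ G55.Adj x z) ∧ (z = w ∨ G55.Adj z w) ∧
      (w = y ∨ G55.Adj w y) := by decide +kernel
  refine { preconnected := ?_, nonempty := ⟨Sum.inl 0⟩ }
  intro x y
  obtain ⟨z, w, h1, h2, h3⟩ := this x y
  have aux : ∀ a b : Fin 5 ⊕ Fin 5, (a = b ∨ G55.Adj a b) → G55.Reachable a b := by
    rintro a b (rfl | h)
    · exact SimpleGraph.Reachable.refl _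
    · exact h.reachable
  exact (aux _ _ h1).trans ((aux _ _ h2).trans (aux _ _ h3))

lemma bipartite : G55.Colorable 2 := by
  refine ⟨SimpleGraph.Coloring.mk (fun x => match x with
    | Sum.inl _ => (0 : Fin 2)
    | Sum.inr _ => 1) ?_⟩
  rintro (i | i) (j | j) h <;> simp_all [G55]

/-- There is a connected bipartite graph that has a beta-valuation (is graceful) but has no near
alpha-valuation. -/
theorem result : ∃ (V : Type) (_ : Fintype V) (G : SimpleGraph V),
    G.Connected ∧ G.Colorable 2 ∧ (∃ b, IsBetaValuation G b) ∧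
      ¬ ∃ b, IsNearAlphaValuation G b :=
  ⟨Fin 5 ⊕ Fin 5, inferInstance, G55, connected, bipartite, ⟨lab, lab_beta⟩,
    fun ⟨b, hb⟩ => no_near b hb⟩

end Pool.Agent.Results.MP_cfde94_co.GracefulNotNear
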